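import Pool.Agent.Helper8_CR.Stmts

/-!
# Modules YRED and GMT
-/

set_option autoImplicit false
set_option linter.unusedVariables false
set_option linter.unusedSectionVars false

namespace Pool.Agent.Helper8_CR.H36

open MvPolynomial Pool.Agent.Helper6_Mono Pool.Agent.Helper6_Mono.RingPart

variable {k : Type} [Field k] {σ : Type}

/-- `f(γ) mod t ^ (a + 1)` only depends on `γ mod t ^ (a + 1)` -/
theorem coeff_aeval_congr {S : Type} [CommRing S] [Algebra k S] (f : MvPolynomial σ k)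
    {γ δ : σ → PowerSeries S} {a : ℕ}
    (h : ∀ i j, j ≤ a → PowerSeries.coeff j (γ i) = PowerSeries.coeff j (δ i)) {j : ℕ}
    (hj : j ≤ a) :
    PowerSeries.coeff j (aeval γ f) = PowerSeries.coeff j (aeval δ f) := by
  let I : Ideal (PowerSeries S) := Ideal.span {PowerSeries.X ^ (a + 1)}
  have h1 : ∀ i, Ideal.Quotient.mkₐ k I (γ i) = Ideal.Quotient.mkₐ k I (δ i) := by
    intro i
    rw [Ideal.Quotient.mkₐ_eq_mk, Ideal.Quotient.eq, Ideal.mem_span_singleton,
      PowerSeries.X_pow_dvd_iff]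
    intro l hl
    rw [map_sub, h i l (by omega), sub_self]
  have h2 : Ideal.Quotient.mkₐ k I (aeval γ f) = Ideal.Quotient.mkₐ k I (aeval δ f) := by
    rw [comp_aeval_apply, comp_aeval_apply, funext h1]
  rw [Ideal.Quotient.mkₐ_eq_mk, Ideal.Quotient.eq, Ideal.mem_span_singleton,
    PowerSeries.X_pow_dvd_iff] at h2
  have h3 := h2 j (by omega)
  rwa [map_sub, sub_eq_zero] at h3

theorem FT_JZ [Finite σ] (f : MvPolynomial σ k) (a : ℕ) (ω : QZ) : FT (JZ f a ω).F :=
  FT.closed (FT.jet Set.univ Set.finite_univ a ω) (fun φ c γ h j hj => by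
      show jf f (fun i => twS ω φ c (γ.1 i)) j = _
      rw [jf_tw, h j hj, map_zero, mul_zero]) (A := Fin (a + 1))
    (w := fun j => (j : ℕ) • ω)
    (fun j => ⟨fun γ => jf f γ.1 (j : ℕ), fun φ c γ => jf_tw ω φ c f γ.1 (j : ℕ)⟩)
    (fun S _ _ x => ⟨fun h j => h j (by have := j.2; omega), fun h j hj => h ⟨j, by omega⟩⟩)

theorem supp_ncard [Finite σ] (m a : ℕ) (h : a ≤ m) :
    {p : σ × ℕ | a < p.2 ∧ p.2 ≤ m}.ncard = Nat.card σ * (m - a) := by
  have h1 : {p : σ × ℕ | a < p.2 ∧ p.2 ≤ m} = (Set.univ : Set σ) ×ˢ (Set.Ioc a m) := by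
    ext p
    simp
  rw [h1, Set.ncard_prod, Set.ncard_univ, Set.ncard_eq_toFinset_card']
  simp

theorem supp_finite [Finite σ] (m a : ℕ) : {p : σ × ℕ | a < p.2 ∧ p.2 ≤ m}.Finite := by
  have h1 : {p : σ × ℕ | a < p.2 ∧ p.2 ≤ m} = (Set.univ : Set σ) ×ˢ (Set.Ioc a m) := by
    ext p
    simp
  rw [h1]
  exact Set.finite_univ.prod (Set.finite_Ioc a m)

theorem yred_iso (f : MvPolynomial σ k) (m a : ℕ) (ha : a < m) (ω : QZ) (hω : m • ω = 0) :
    OIso (JY f m a ω hω) ((JZ f a ω).times (GF.sup k {p : σ × ℕ | a < p.2 ∧ p.2 ≤ m} ω)) := by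
  refine OIso.mk' (fun S _ _ γ => (⟨⟨fun i => lowS a (γ.1.1 i), ?_⟩, ?_⟩,
      ⟨fun i => γ.1.1 i - lowS a (γ.1.1 i), ?_⟩))
    (fun S _ _ p => ⟨⟨fun i => p.1.1.1 i + p.2.1 i, ?_⟩, ?_⟩) ?_ ?_ ?_ ?_
  · intro i j h
    rw [coeff_lowS]
    rcases h with h | h
    · exact absurd (Set.mem_univ i) h
    · rw [if_neg (by omega)]
  · intro j hj
    have h1 := γ.2 j hj
    rw [if_neg (by omega)] at h1
    exact (coeff_aeval_congr f (fun i l hl => by rw [coeff_lowS, if_pos hl]) hj).trans h1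
  · intro i j h
    rw [map_sub, coeff_lowS]
    by_cases h1 : j ≤ a
    · rw [if_pos h1, sub_self]
    · rw [if_neg h1, sub_zero]
      refine γ.1.2 i j (Or.inr ?_)
      by_contra h2
      exact h ⟨by omega, by omega⟩
  · intro i j h
    rcases h with h | h
    · exact absurd (Set.mem_univ i) h
    · rw [map_add, p.1.1.2 i j (Or.inr (by omega)), p.2.2 i j (fun h' => by
        have := h'.2; simp only at this; omega), add_zero]
  · intro j hj
    rw [if_neg (by omega)]
    refine (coeff_aeval_congr f (fun i l hl => ?_) hj).trans (p.1.2 j hj)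
    rw [map_add, p.2.2 i l (fun h' => by have := h'.1; simp only at this; omega), add_zero]
  · intro S _ _ γ
    refine Subtype.ext (Subtype.ext (funext fun i => ?_))
    exact add_sub_cancel _ _
  · intro S _ _ p
    have h1 : ∀ i, lowS a (p.1.1.1 i + p.2.1 i) = p.1.1.1 i := by
      intro i
      ext j
      rw [coeff_lowS]
      split_ifs with h
      · rw [map_add, p.2.2 i j (fun h' => by have := h'.1; simp only at this; omega), add_zero]
      · rw [p.1.1.2 i j (Or.inr (by omega))]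
    refine Prod.ext (Subtype.ext (Subtype.ext (funext fun i => h1 i)))
      (Subtype.ext (funext fun i => ?_))
    show p.1.1.1 i + p.2.1 i - lowS a (p.1.1.1 i + p.2.1 i) = p.2.1 i
    rw [h1, add_sub_cancel_left]
  · intro S S' _ _ _ _ φ c γ
    refine Prod.ext (Subtype.ext (Subtype.ext (funext fun i => ?_)))
      (Subtype.ext (funext fun i => ?_))
    · exact (twS_lowS ω φ c a _).symm
    · show twS ω φ c (γ.1.1 i) - lowS a (twS ω φ c (γ.1.1 i)) =
        twS ω φ c (γ.1.1 i - lowS a (γ.1.1 i))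
      rw [map_sub, twS_lowS]
  · intro S _ _ γ b
    show PowerSeries.coeff 0 (lowS a (γ.1.1 b)) = PowerSeries.coeff 0 (γ.1.1 b)
    rw [coeff_lowS, if_pos (Nat.zero_le a)]

theorem yred : YredStmt := by
  intro k _ σ _ f R _ L χ m a ha ω hω
  have h1 := yred_iso f m a ha ω hω
  rw [← χ.iso ((FT_JZ f a ω).prod (FT.sup (supp_finite m a) ω)) h1.symm,
    χ.times_sup (FT_JZ f a ω) (supp_finite m a) ω, supp_ncard m a ha.le]

theorem gmt_iso (f : MvPolynomial σ k) (a : ℕ) (ω : QZ) :
    OIso ((JZ f a ω).times (GF.gm k ω)) ((JZ f a 0).times (GF.gm k ω)) := by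
  have key : ∀ (S : Type) [CommRing S] [Algebra k S] (y : S) (γ : σ → PowerSeries S) (j : ℕ),
      jf f (fun i => PowerSeries.rescale y (γ i)) j = y ^ j * jf f γ j := by
    intro S _ _ y γ j
    let Φ : PowerSeries S →ₐ[k] PowerSeries S :=
      { PowerSeries.rescale y with
        commutes' := fun r => by
          ext l
          show PowerSeries.coeff l (PowerSeries.rescale y (algebraMap k (PowerSeries S) r)) = _
          rw [PowerSeries.coeff_rescale, PowerSeries.algebraMap_apply, PowerSeries.coeff_C]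
          split_ifs with h
          · rw [h, pow_zero, one_mul]
          · rw [mul_zero] }
    have h1 : aeval (fun i => PowerSeries.rescale y (γ i)) f = Φ (aeval γ f) :=
      (comp_aeval_apply _ Φ f).symm
    rw [jf, h1]
    exact PowerSeries.coeff_rescale _ _ _
  have hr : ∀ (S : Type) [CommRing S] (y z : S) (U : PowerSeries S), y * z = 1 →
      PowerSeries.rescale y (PowerSeries.rescale z U) = U := by
    intro S _ y z U h
    ext j
    rw [PowerSeries.coeff_rescale, PowerSeries.coeff_rescale, ← mul_assoc, ← mul_pow, h, one_pow,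
      one_mul]
  refine OIso.mk' (fun S _ _ p => (⟨⟨fun i => PowerSeries.rescale (Ring.inverse p.2.1) (p.1.1.1 i),
      ?_⟩, ?_⟩, p.2))
    (fun S _ _ p => (⟨⟨fun i => PowerSeries.rescale p.2.1 (p.1.1.1 i), ?_⟩, ?_⟩, p.2)) ?_ ?_ ?_ ?_
  · intro i j h
    rw [PowerSeries.coeff_rescale, p.1.1.2 i j h, mul_zero]
  · intro j hj
    show jf f (fun i => PowerSeries.rescale _ (p.1.1.1 i)) j = 0
    rw [key, p.1.2 j hj, mul_zero]
  · intro i j h
    rw [PowerSeries.coeff_rescale, p.1.1.2 i j h, mul_zero]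
  · intro j hj
    show jf f (fun i => PowerSeries.rescale _ (p.1.1.1 i)) j = 0
    rw [key, p.1.2 j hj, mul_zero]
  · intro S _ _ p
    refine Prod.ext (Subtype.ext (Subtype.ext (funext fun i => ?_))) rfl
    exact hr S _ _ _ (Ring.mul_inverse_cancel _ p.2.2)
  · intro S _ _ p
    refine Prod.ext (Subtype.ext (Subtype.ext (funext fun i => ?_))) rfl
    exact hr S _ _ _ (Ring.inverse_mul_cancel _ p.2.2)
  · intro S S' _ _ _ _ φ c p
    refine Prod.ext (Subtype.ext (Subtype.ext (funext fun i => ?_))) rfl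
    ext j
    show PowerSeries.coeff j (PowerSeries.rescale (Ring.inverse (chr c ω * φ p.2.1))
      (twS ω φ c (p.1.1.1 i))) = PowerSeries.coeff j (twS 0 φ c
        (PowerSeries.rescale (Ring.inverse p.2.1) (p.1.1.1 i)))
    have h1 : Ring.inverse (chr c ω * φ p.2.1) = chr c (-ω) * φ (Ring.inverse p.2.1) := by
      apply inv_eq_of_mul
      rw [show chr c (-ω) * φ (Ring.inverse p.2.1) * (chr c ω * φ p.2.1)
        = (chr c (-ω) * chr c ω) * (φ (Ring.inverse p.2.1) * φ p.2.1) by ring,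
        chr_neg_mul, ← map_mul, Ring.inverse_mul_cancel _ p.2.2, map_one, one_mul]
    have h2 : (chr c (-ω)) ^ j * (chr c ω) ^ j = 1 := by
      rw [← mul_pow, chr_neg_mul, one_pow]
    rw [PowerSeries.coeff_rescale, coeff_twS, coeff_twS, PowerSeries.coeff_rescale, h1, mul_pow,
      chr_nsmul, smul_zero, chr_zero, one_mul, map_mul, map_pow]
    calc chr c (-ω) ^ j * φ (Ring.inverse p.2.1) ^ j * (chr c ω ^ j
          * φ (PowerSeries.coeff j (p.1.1.1 i)))
        = (chr c (-ω) ^ j * chr c ω ^ j) * (φ (Ring.inverse p.2.1) ^ j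
          * φ (PowerSeries.coeff j (p.1.1.1 i))) := by ring
      _ = _ := by rw [h2, one_mul]
  · intro S _ _ p b
    show PowerSeries.coeff 0 (PowerSeries.rescale (Ring.inverse p.2.1) (p.1.1.1 b)) =
      PowerSeries.coeff 0 (p.1.1.1 b)
    rw [PowerSeries.coeff_rescale, pow_zero, one_mul]

theorem gmt : GmtStmt := by
  intro k _ σ _ f R _ L χ a ω
  rw [← χ.times_gm (FT_JZ f a ω) ω, ← χ.times_gm (FT_JZ f a 0) ω]
  exact χ.iso ((FT_JZ f a ω).prod (FT.gm ω)) (gmt_iso f a ω)

end Pool.Agent.Helper8_CR.H36
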